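import Pool.Agent.Helper730.SMB

set_option autoImplicit false

open scoped commutatorElement

namespace Pool.Agent.Results.MP_1c3690_al.VirtuallyCentral

open Pool.Agent.Helper730.SM

theorem nb_of_laws {S : Set (FreeGroup ℕ)}
    (hsmall : ¬ ∃ (G : Set ℕ → Type) (_ : ∀ s, Group (G s)),
          (∀ s, Group.FG (G s)) ∧
          (∀ s, ∀ w ∈ S, ∀ f : ℕ → G s, FreeGroup.lift f w = 1) ∧
          (∀ s t, Nonempty (G s ≃* G t) → s = t))
    {G : Type} [Group G] (hG : ∀ w ∈ S, ∀ f : ℕ → G, FreeGroup.lift f w = 1) : NB G := by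
  intro H _ hfg hH hbig
  obtain ⟨s, hs, hiso⟩ := small_big hfg hbig
  apply hsmall
  refine ⟨fun a => H ⧸ s a, fun a => inferInstance, fun a => inferInstance, ?_, hiso⟩
  intro a w hw f
  have h1 : InVar G (H ⧸ s a) :=
    inVar_of_surjective hH (QuotientGroup.mk' (s a)) (QuotientGroup.mk'_surjective (s a))
  refine h1 w ?_ (FreeGroup.lift f)
  intro g
  have h2 := hG w hw (fun i => g (FreeGroup.of i))
  have h3 : FreeGroup.lift (fun i => g (FreeGroup.of i)) = g := by
    ext i
    simp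
  rwa [h3] at h2

/-- Let `V` be a variety of groups, given by a set `S` of laws, which is small: it does not contain
`2^ℵ₀` pairwise non-isomorphic finitely generated groups. Let `G` be a finitely generated group
in `V` with normal subgroups `1 = N 0 ≤ N 1 ≤ ... ≤ N k` such that each factor `N (i+1) / N i` is
centralised by a subgroup of finite index in `G`, and such that `G / N k` satisfies MAX-N. Then `G`
satisfies MAX-N. -/
theorem result :
    ∀ S : Set (FreeGroup ℕ),
      (¬ ∃ (G : Set ℕ → Type) (_ : ∀ s, Group (G s)),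
          (∀ s, Group.FG (G s)) ∧
          (∀ s, ∀ w ∈ S, ∀ f : ℕ → G s, FreeGroup.lift f w = 1) ∧
          (∀ s t, Nonempty (G s ≃* G t) → s = t)) →
      ∀ (G : Type) [Group G], Group.FG G →
        (∀ w ∈ S, ∀ f : ℕ → G, FreeGroup.lift f w = 1) →
        ∀ (k : ℕ) (N : ℕ → Subgroup G), (∀ i, (N i).Normal) → N 0 = ⊥ →
          (∀ i < k, N i ≤ N (i + 1) ∧ ∃ H : Subgroup G, H.FiniteIndex ∧
            ∀ n ∈ N (i + 1), ∀ h ∈ H, ⁅n, h⁆ ∈ N i) →
          (∀ K : ℕ → Subgroup G, (∀ j, (K j).Normal) → Monotone K → (∀ j, N k ≤ K j) →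
            ∃ m, ∀ j, m ≤ j → K j = K m) →
          ∀ K : ℕ → Subgroup G, (∀ j, (K j).Normal) → Monotone K →
            ∃ m, ∀ j, m ≤ j → K j = K m := by
  intro S hsmall G _ hfg hG k N hN h0 hc hmax
  exact chain_main (nb_of_laws hsmall hG) hfg k N hN h0 hc hmax

end Pool.Agent.Results.MP_1c3690_al.VirtuallyCentral
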